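import Pool.Agent.H674.SH.Pow
import Pool.Agent.H674.SH.Def

set_option autoImplicit false

/-!
# Every number field has infinitely many cyclic extensions of degree `p` (or `p ^ m`) with the same
Leopoldt defect

Let `K` be any number field and `p` an odd prime which is unramified in `K`, and let `m = 1`, or let
`m ≥ 1` be arbitrary and assume that some prime of `K` above `p` has degree at most `r₂(K)` (for instance
`K` is totally imaginary and has at least two primes above `p`). We prove that there are infinitely
many cyclic extensions `H / K` of degree `p ^ m` for which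

* the `χ`-part of Leopoldt's conjecture for `H` and `p` holds for all nontrivial characters `χ` of
  `Gal(H / K)`,
* the Leopoldt defects of `H` and `K` are equal, and
* Leopoldt's conjecture holds for `H` and `p` if it holds for `K` and `p`.

More precisely, for every finite set `B` of primes of `K` there is such an `H` whose ramified primes form
a nonempty set disjoint from `B`. The prime `p` is unramified in `H`, so the theorem can be applied to
`H` again: every number field in which `p` is unramified and which satisfies Leopoldt's conjecture at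
`p` (for example every abelian field of conductor prime to `p`) is the bottom of infinite towers of
fields satisfying Leopoldt's conjecture.

Proof (project SH of the library, started by helper5 of an earlier run and proved by many authors
there; the parts are put together here). Let `T` be a finite set of primes of degree one of `K` and
`χ` a character of order `p ^ m` of conductor `∏_{v ∈ T} v`, and `H` the cyclic extension which belongs
to `χ`. If the conjecture fails for a nontrivial character, there are units of a layer of `H / K`, of
relative norm one, arbitrarily close to `1` at the places above `p` (it is enough to consider places of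
total degree at least `r₁ + r₂`), which are not `p`-th powers; one which is fixed
by `Gal(H/K)` modulo `p`-th powers is up to a `p`-th power an element `b` of `K^*` (Hilbert 90), and
`b` lies in the Selmer group of the elements which are close to `p`-th powers above `p`, have divisors
divisible by `p` outside `T` and are killed by the local components of `χ`. The Selmer group is made
trivial by adding suitable pairs of primes to `T`: the unit rank `r₁ + r₂ - 1` is smaller than the
degree of the places, which gives room in the dual group, and Chebotarev's theorem is used for a field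
which contains the `p`-power roots of the elements involved and a ray class field. Class field theory (the
reciprocity law, the existence theorem, and class group characters are unramified) is used in the form
proved in the library. New here: the passage from the faithful characters of the layers to
all characters, the equality of the defects, and Leopoldt's conjecture for the layers one after the
other.
-/

namespace Pool.Agent.Results.MP_5f2860_nt.CyclicExtensionsOfEveryField

open NumberField IsDedekindDomain Filter Topology Pool.Agent.W289.SL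

/-- Leopoldt's conjecture for the number field `K` and the prime `p`: units of `K` congruent to `1`
at all primes above `p` which are multiplicatively independent over `ℤ` stay independent over
`ℤ_p` in the product of the completions above `p`. -/
def LeopoldtAt (K : Type) [Field K] [NumberField K] (p : ℕ) [Fact p.Prime] : Prop :=
  ∀ (n : ℕ) (ε : Fin n → (𝓞 K)ˣ),
    (∀ i, ((ε i : 𝓞 K) - 1) ∈ (Ideal.span {((p : ℕ) : 𝓞 K)}).radical) →
    (∀ c : Fin n → ℤ, ∏ i, ε i ^ c i = 1 → c = 0) →
    ∀ (a : Fin n → PadicInt p) (m : ℕ → Fin n → ℤ),
      (∀ i, Tendsto (fun k => ((m k i : ℤ) : PadicInt p)) atTop (𝓝 (a i))) →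
      (∀ N : ℕ, ∀ᶠ k in atTop,
        ((p : ℕ) : 𝓞 K) ^ N ∣ (((∏ i, ε i ^ m k i : (𝓞 K)ˣ) : 𝓞 K) - 1)) →
      a = 0

/-- The prime `p` is unramified in `K`: the ideal `(p)` of `𝓞 K` is radical. -/
def UnramifiedIn (K : Type) [Field K] [NumberField K] (p : ℕ) : Prop :=
  (Ideal.span {(p : 𝓞 K)}).IsRadical

/-- The prime `v` of `K` is unramified in `H`: it is not contained in the square of a prime of `H`. -/
def UnramifiedAt {K : Type} (H : Type) [Field K] [NumberField K] [Field H] [NumberField H]
    [Algebra K H] (v : HeightOneSpectrum (𝓞 K)) : Prop :=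
  ∀ w : HeightOneSpectrum (𝓞 H), w.under (𝓞 K) = v →
    ¬ v.asIdeal.map (algebraMap (𝓞 K) (𝓞 H)) ≤ w.asIdeal ^ 2

/-- `H / K` is a cyclic extension of degree `n` in which exactly the primes of `T` ramify. -/
def IsCyclicRamified (K H : Type) [Field K] [NumberField K] [Field H] [NumberField H] [Algebra K H]
    (n : ℕ) (T : Finset (HeightOneSpectrum (𝓞 K))) : Prop :=
  IsGalois K H ∧ IsCyclic (H ≃ₐ[K] H) ∧ Module.finrank K H = n ∧
    ∀ v : HeightOneSpectrum (𝓞 K), UnramifiedAt H v ↔ v ∉ T

/-- The `χ`-part of Leopoldt's conjecture for `H` and `p`, `χ` a character of `Gal(H / K)`: the map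
`x ↦ (log_p (σ x))_σ`, `σ` in the set of all embeddings `H → ℂ_p`, is injective on the `χ`-part of
`ℂ_p ⊗ 𝓞_H^×`. -/
def ChiLeopoldt (p : ℕ) [Fact p.Prime] (K H : Type) [Field K] [Field H] [NumberField H]
    [Algebra K H] (χ : (H ≃ₐ[K] H) →* ℂ_[p]ˣ) : Prop :=
  ∀ (L : ℂ_[p] → ℂ_[p]) (hL : IsIwasawaLog p L) (x : UM p H),
    (∀ τ : H ≃ₐ[K] H, actLin p (τ : H →+* H) x = ((χ τ : ℂ_[p]ˣ) : ℂ_[p]) • x) →
    (∀ σ : H →+* ℂ_[p], logLin hL σ x = 0) → x = 0

/-- The space of the `x ∈ ℂ_p ⊗ 𝓞_K^×` with `log_p (σ x) = 0` for all embeddings `σ : K → ℂ_p`. -/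
noncomputable def logKernel (p : ℕ) [Fact p.Prime] (K : Type) [Field K] [NumberField K] :
    Submodule ℂ_[p] (UM p K) where
  carrier := {x | ∀ (L : ℂ_[p] → ℂ_[p]) (hL : IsIwasawaLog p L) (σ : K →+* ℂ_[p]), logLin hL σ x = 0}
  add_mem' {x y} hx hy L hL σ := by rw [map_add, hx L hL σ, hy L hL σ, add_zero]
  zero_mem' L hL σ := map_zero _
  smul_mem' c x hx L hL σ := by rw [map_smul, hx L hL σ, smul_zero]

/-- The Leopoldt defect `δ(K, p)` (regulator form): the dimension of the space of the
`x ∈ ℂ_p ⊗ 𝓞_K^×` with `log_p (σ x) = 0` for all embeddings `σ : K → ℂ_p`, in other words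
`r₁ + r₂ - 1` minus the rank of the matrix `(log_p (σ_j ε_i))` for a system `ε_i` of fundamental
units. -/
noncomputable def leopoldtDefect (p : ℕ) [Fact p.Prime] (K : Type) [Field K] [NumberField K] : ℕ :=
  Module.finrank ℂ_[p] (logKernel p K)

/-- **Main result.** Let `K` be a number field, `p` an odd prime which is unramified in `K`, `m ≥ 1` and
`B` a finite set of primes of `K`. Assume that `m = 1` or that `K` has a prime `v` above `p` of norm at
most `p ^ r₂(K)`. There are a nonempty finite set `T` of primes of `K` disjoint from `B` and a cyclic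
extension `H / K` of degree `p ^ m` in which exactly the primes of `T` ramify and in which `p` is
unramified, such that the `χ`-part of Leopoldt's conjecture for `H` and `p` holds for all nontrivial
characters `χ` of `Gal(H / K)`, the Leopoldt defects of `H` and `K` are equal, and Leopoldt's
conjecture holds for `H` and `p` if it holds for `K` and `p`. -/
theorem result (p : ℕ) [Fact p.Prime] (hp : p ≠ 2) (K : Type) [Field K] [NumberField K]
    (hK : UnramifiedIn K p) (m : ℕ) (hm : 1 ≤ m)
    (hv : m = 1 ∨ ∃ v : HeightOneSpectrum (𝓞 K), (p : 𝓞 K) ∈ v.asIdeal ∧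
      Ideal.absNorm v.asIdeal ≤ p ^ InfinitePlace.nrComplexPlaces K)
    (B : Set (HeightOneSpectrum (𝓞 K))) (hB : B.Finite) :
    ∃ T : Finset (HeightOneSpectrum (𝓞 K)), T.Nonempty ∧ (∀ v ∈ T, v ∉ B) ∧
      ∃ (H : Type) (_ : Field H) (_ : NumberField H) (_ : Algebra K H),
        IsCyclicRamified K H (p ^ m) T ∧ UnramifiedIn H p ∧
        (∀ χ : (H ≃ₐ[K] H) →* ℂ_[p]ˣ, χ ≠ 1 → ChiLeopoldt p K H χ) ∧
        leopoldtDefect p H = leopoldtDefect p K ∧
        (LeopoldtAt K p → LeopoldtAt H p) := by
  obtain ⟨T, h1, h2, H, i1, i2, i3, i4, i5, h3, h4, h5, h6, h7⟩ :=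
    Pool.Agent.H674.SH.powStep hp hK m hm hv B hB
  have hcomm : ∀ a b : H ≃ₐ[K] H, a * b = b * a := by
    obtain ⟨g, hg⟩ := i5.exists_generator
    intro a b
    obtain ⟨i, rfl⟩ := Subgroup.mem_zpowers_iff.1 (hg a)
    obtain ⟨j, rfl⟩ := Subgroup.mem_zpowers_iff.1 (hg b)
    rw [← zpow_add, ← zpow_add, add_comm]
  exact ⟨T, h1, h2, H, i1, i2, i3, ⟨i4, i5, h3, h4⟩, h5,
    fun χ hχ L hL x hx h0 => h6 χ hχ L hL x hx fun σ _ => h0 σ,
    Pool.Agent.H674.SH.defect_eq hcomm h6, h7⟩

end Pool.Agent.Results.MP_5f2860_nt.CyclicExtensionsOfEveryField
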