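import Pool.Agent.H517.E.Two
import Pool.Agent.H517.E.Leo

/-!
# Leopoldt's conjecture, at one place, in towers of `p`-extensions

`p` is a prime number, `K` a number field (totally complex if `p = 2`), `w` a place of `K` above `p`
and `S` a finite set of places of `K` not above `p`. We suppose

* `Generates p S w`: the class group modulo the class of `w` has order prime to `p` and, `(p) = w^e 𝔟`
  with `𝔟` prime to `w` and `𝔫` the product of the primes in `S`, every element of `(O / 𝔟³ 𝔫)ˣ` is the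
  product of a `p`-th power and of the image of an `α ∈ O` for which `(α)` is a power of `w`;
* `K` contains a primitive `p`-th root of unity, or `Independent p S w`: the completion `K_w` contains no
  primitive `p`-th root of unity and an element of `Kˣ` which is a `p`-th power in `K_w` and whose orders at all
  primes outside `p` and `S` are divisible by `p` is a `p`-th power in `K`.

For example `K` may be an imaginary quadratic field and `S = ∅` if `p ≠ 2`, `(p) = w w'` with `w ≠ w'`, the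
class number is prime to `p` and `α^(p-1) ≢ 1` modulo `w'^2` for an `α` for which `(α)` is a power of `w`; and
`K = ℚ(√(1 - 4p))` for every odd `p`.

Theorem. (1) Let `L` be a field which is contained in a finite Galois extension `M / K` of degree a power of
`p`, unramified outside `p` and `S`. Then multiplicatively independent units of `L` remain independent over `ℤ_p`
in the product of the completions of `L` at the places above `w` (there is only one such place, of local
degree `[L : K] [K_w : ℚ_p]`). In particular Leopoldt's conjecture is true for `L` and `p`. (2) If `Independent`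
holds, this is also true for all `L` contained in a finite Galois extension `M / K` of degree `2 · p^a`, unramified outside
`p` and `S`, which contains the `p`-th roots of unity: so `[K(ζ_p) : K] = 2` and these are the towers of `p`-extensions over
`K(ζ_p)`; for `p = 3` they are all towers of `3`-extensions over `K(√-3)`. For `p = 3` and imaginary
quadratic `K`, for example `ℚ(√-2)` and `ℚ(√-11)`, the field `K(√-3)` has two places above `3` and contains `√-3`, so it is not
`3`-rational.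

Proof. For an extension of groups of `p`-power index a cocycle with values in `μ_p` which vanishes on the inertia
groups outside `p`, `S` and on one decomposition group above `w` vanishes (see
`MP_787500_nt/EveryPrimeTowers`). So an element of `Lˣ` which is a `p^m`-th power in the completion above `w` and
whose order is divisible by `p^m` outside `p` and `S` is a `p^m`-th power in `L`. If `[K(ζ_p) : K] = 2` the group of the
homomorphisms of the absolute Galois group of `K(ζ_p)` to `ℤ/p` is the sum of its two eigenspaces, homomorphisms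
and `μ_p`-valued cocycles of the group of `K`.
-/

set_option autoImplicit false
set_option linter.unusedSectionVars false

namespace Pool.Agent.Results.MP_5f2860_nt.OnePlaceInTowers

open NumberField IsDedekindDomain Module Filter Topology

/-! ### The Galois groups, the decomposition groups and the inertia groups -/

/-- An algebraic closure of the number field `K`. -/
abbrev Bar (K : Type) [Field K] : Type := AlgebraicClosure K

/-- The absolute Galois group of `K`. -/
abbrev Gal (K : Type) [Field K] : Type := Bar K ≃ₐ[K] Bar K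

/-- The absolute Galois group of the field `L` between `K` and its algebraic closure. -/
abbrev GalL {K : Type} [Field K] (L : IntermediateField K (Bar K)) : Type := L.fixingSubgroup

section def1

variable {K : Type} [Field K]

/-- The maximal ideal `Q` of the ring of all algebraic integers lies above the prime `v` of `K`. -/
def Above (Q : Ideal (𝓞 (Bar K))) (v : HeightOneSpectrum (𝓞 K)) : Prop :=
  Q.IsMaximal ∧ Q.comap (algebraMap (𝓞 K) (𝓞 (Bar K))) = v.asIdeal

/-- The decomposition group of the maximal ideal `Q` of the ring of all algebraic integers: the `σ`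
such that `σ Q = Q`. -/
def Dec (Q : Ideal (𝓞 (Bar K))) : Set (Gal K) := {σ | ∀ x : 𝓞 (Bar K), x ∈ Q ↔ σ • x ∈ Q}

/-- The inertia group: the `σ` such that `σ x` is congruent to `x` modulo `Q` for all `x`. -/
def Inr (Q : Ideal (𝓞 (Bar K))) : Set (Gal K) := {σ | ∀ x : 𝓞 (Bar K), σ • x - x ∈ Q}

/-- `Q` is a place of the field of all algebraic numbers at which no ramification is allowed: it is a
maximal ideal, not above `p` and not above a prime in `S`. -/
def Outside (p : ℕ) (S : Finset (HeightOneSpectrum (𝓞 K))) (Q : Ideal (𝓞 (Bar K))) : Prop :=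
  Q.IsMaximal ∧ (p : 𝓞 (Bar K)) ∉ Q ∧ ∀ v ∈ S, ¬ Above Q v

/-- `L` is contained in a finite Galois extension `M / K` whose degree is a power of `p` and which is
unramified outside `p` and `S`. -/
def InTower (p : ℕ) (S : Finset (HeightOneSpectrum (𝓞 K))) (L : IntermediateField K (Bar K)) :
    Prop :=
  ∃ M : IntermediateField K (Bar K), L ≤ M ∧ FiniteDimensional K M ∧ IsGalois K M ∧
    (∃ a : ℕ, finrank K M = p ^ a) ∧
    ∀ Q : Ideal (𝓞 (Bar K)), Outside p S Q → ∀ σ ∈ Inr Q, ∀ x ∈ M, σ x = x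

/-- `L` is contained in a finite Galois extension `M / K` of degree `2 · p ^ a` which contains the `p`-th
roots of unity and is unramified outside `p` and `S`. -/
def InTowerTwo (p : ℕ) (S : Finset (HeightOneSpectrum (𝓞 K))) (L : IntermediateField K (Bar K)) :
    Prop :=
  ∃ M : IntermediateField K (Bar K), L ≤ M ∧ FiniteDimensional K M ∧ IsGalois K M ∧
    (∃ a : ℕ, finrank K M = 2 * p ^ a) ∧ (∀ ζ : Bar K, ζ ^ p = 1 → ζ ∈ M) ∧
    ∀ Q : Ideal (𝓞 (Bar K)), Outside p S Q → ∀ σ ∈ Inr Q, ∀ x ∈ M, σ x = x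

end def1

/-! ### The condition on the place above `p` and on `S` -/

section def2

variable {K : Type} [Field K] [NumberField K]

/-- The class of a prime. -/
noncomputable def cl (w : HeightOneSpectrum (𝓞 K)) : ClassGroup (𝓞 K) :=
  ClassGroup.mk0 ⟨w.asIdeal, mem_nonZeroDivisors_iff_ne_zero.2 w.ne_bot⟩

/-- The class group modulo the class of `w` has order prime to `p`. -/
def ClassCondition (p : ℕ) (w : HeightOneSpectrum (𝓞 K)) : Prop :=
  ∀ C : ClassGroup (𝓞 K), ∃ m k : ℕ, ¬ p ∣ m ∧ C ^ m = cl w ^ k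

/-- The place `w` lies above `p`, those in `S` do not, the class group modulo the class of `w` has order
prime to `p` and, `(p) = w ^ e 𝔟` with `𝔟` prime to `w` and `𝔫` the product of the primes in `S`,
the group `(O / 𝔟 ^ 3 𝔫)ˣ` is generated by the `p`-th powers and the images of the elements `α` of
`O` for which `(α)` is a power of `w`. -/
structure Generates (p : ℕ) (S : Finset (HeightOneSpectrum (𝓞 K))) (w : HeightOneSpectrum (𝓞 K)) :
    Prop where
  above : (p : 𝓞 K) ∈ w.asIdeal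
  tame : ∀ v ∈ S, (p : 𝓞 K) ∉ v.asIdeal
  classes : ClassCondition p w
  units : ∃ (e : ℕ) (𝔟 : Ideal (𝓞 K)), w.asIdeal ^ e * 𝔟 = Ideal.span {(p : 𝓞 K)} ∧
    IsCoprime w.asIdeal 𝔟 ∧ ∀ x : 𝓞 K, IsCoprime (Ideal.span {x}) (𝔟 * ∏ v ∈ S, v.asIdeal) →
      ∃ (α y : 𝓞 K) (k : ℕ), Ideal.span {α} = w.asIdeal ^ k ∧
        x * α - y ^ p ∈ 𝔟 ^ 3 * ∏ v ∈ S, v.asIdeal

/-- The element `x` of `K` has a `p`-th root which is fixed by the decomposition group of a place above
`w`, that is, it is a `p`-th power in the completion of `K` at `w`. -/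
def PowerAt (p : ℕ) (w : HeightOneSpectrum (𝓞 K)) (x : K) : Prop :=
  ∃ (Q : Ideal (𝓞 (Bar K))) (y : Bar K), Above Q w ∧ y ^ p = algebraMap K (Bar K) x ∧
    ∀ σ ∈ Dec Q, σ y = y

/-- The completion at `w` contains no primitive `p`-th root of unity, and the elements of `Kˣ` which
are `p`-th powers there and whose orders at the primes not above `p` and not in `S` are divisible by `p` are
`p`-th powers in `K`. -/
structure Independent (p : ℕ) (S : Finset (HeightOneSpectrum (𝓞 K))) (w : HeightOneSpectrum (𝓞 K)) :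
    Prop where
  roots : ∀ Q : Ideal (𝓞 (Bar K)), Above Q w → ∀ ζ : Bar K, IsPrimitiveRoot ζ p →
    ∃ σ ∈ Dec Q, σ ζ ≠ ζ
  powers : ∀ x : K, x ≠ 0 → (∀ v : HeightOneSpectrum (𝓞 K), (p : 𝓞 K) ∉ v.asIdeal → v ∉ S →
    ∃ t : WithZero (Multiplicative ℤ), v.valuation K x = t ^ p) → PowerAt p w x → ∃ b : K, x = b ^ p

/-- Both conditions. -/
def Suitable (p : ℕ) (S : Finset (HeightOneSpectrum (𝓞 K))) (w : HeightOneSpectrum (𝓞 K)) : Prop :=
  Generates p S w ∧ Independent p S w

/-- The classical condition for imaginary quadratic fields: `(p) = w w'`, `w ≠ w'`, `p` does not divide the class number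
and `α ^ (p - 1)` is not `1` modulo `w' ^ 2` for an `α` for which `(α)` is a power of `w`. -/
def Gold (p : ℕ) (w w' : HeightOneSpectrum (𝓞 K)) : Prop :=
  w ≠ w' ∧ w.asIdeal * w'.asIdeal = Ideal.span {(p : 𝓞 K)} ∧ ¬ p ∣ classNumber K ∧
    ∃ (α : 𝓞 K) (k : ℕ), Ideal.span {α} = w.asIdeal ^ k ∧ α ^ (p - 1) - 1 ∉ w'.asIdeal ^ 2

/-! ### Leopoldt's conjecture -/

/-- Leopoldt's conjecture for the number field `F` and the prime `p`, in the form of the frozen statement. -/
def Leopoldt (F : Type) [Field F] [NumberField F] (p : ℕ) [Fact p.Prime] : Prop :=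
  ∀ (n : ℕ) (ε : Fin n → (𝓞 F)ˣ),
    (∀ i, ((ε i : 𝓞 F) - 1) ∈ (Ideal.span {((p : ℕ) : 𝓞 F)}).radical) →
    (∀ c : Fin n → ℤ, ∏ i, ε i ^ c i = 1 → c = 0) →
    ∀ (a : Fin n → PadicInt p) (m : ℕ → Fin n → ℤ),
      (∀ i, Tendsto (fun k => ((m k i : ℤ) : PadicInt p)) atTop (𝓝 (a i))) →
      (∀ N : ℕ, ∀ᶠ k in atTop,
        ((p : ℕ) : 𝓞 F) ^ N ∣ (((∏ i, ε i ^ m k i : (𝓞 F)ˣ) : 𝓞 F) - 1)) →
      a = 0

/-- Leopoldt's conjecture for the number field `F` in the `I`-adic completion: if the units `ε i` of `F` are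
multiplicatively independent, the vectors `m k` of integers tend to the vector `a` of `p`-adic integers and the
units `∏ ε i ^ m k i` tend to `1` in the `I`-adic topology, then `a = 0`. -/
def LeopoldtFor (p : ℕ) [Fact p.Prime] (F : Type) [Field F] [NumberField F] (I : Ideal (𝓞 F)) : Prop :=
  ∀ (n : ℕ) (ε : Fin n → (𝓞 F)ˣ), (∀ c : Fin n → ℤ, ∏ i, ε i ^ c i = 1 → c = 0) →
    ∀ (a : Fin n → ℤ_[p]) (m : ℕ → Fin n → ℤ),
      (∀ i, Tendsto (fun k => ((m k i : ℤ) : ℤ_[p])) atTop (𝓝 (a i))) →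
      (∀ N : ℕ, ∀ᶠ k in atTop, ((∏ i, ε i ^ m k i : (𝓞 F)ˣ) : 𝓞 F) - 1 ∈ I ^ N) →
      a = 0

/-- Leopoldt's conjecture for `L` at the places above `w`: the ideal is generated by the elements of `w`. -/
def LeopoldtAt (p : ℕ) [Fact p.Prime] (w : HeightOneSpectrum (𝓞 K)) (L : IntermediateField K (Bar K))
    [NumberField L] : Prop :=
  LeopoldtFor p L (Ideal.map (algebraMap (𝓞 K) (𝓞 L)) w.asIdeal)

/-- Leopoldt's conjecture at the places above `w` for all fields in the towers of `p`-extensions over `K`. -/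
def LeopoldtInTowers (p : ℕ) [Fact p.Prime] (S : Finset (HeightOneSpectrum (𝓞 K)))
    (w : HeightOneSpectrum (𝓞 K)) : Prop :=
  ∀ (L : IntermediateField K (Bar K)) [NumberField L], InTower p S L → LeopoldtAt p w L

/-- Leopoldt's conjecture at the places above `w` for all fields in the towers of `p`-extensions over `K(ζ_p)`,
`[K(ζ_p) : K] = 2`. -/
def LeopoldtInTowersTwo (p : ℕ) [Fact p.Prime] (S : Finset (HeightOneSpectrum (𝓞 K)))
    (w : HeightOneSpectrum (𝓞 K)) : Prop :=
  ∀ (L : IntermediateField K (Bar K)) [NumberField L], InTowerTwo p S L → LeopoldtAt p w L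

end def2

section proof

open Pool.Agent.NH7.Sch (OO)
open Pool.Agent.H517

variable {K : Type} [Field K] [NumberField K] {p : ℕ} [hp : Fact p.Prime]

theorem prod_le_iff {S : Finset (HeightOneSpectrum (𝓞 K))} (v : HeightOneSpectrum (𝓞 K)) :
    (∏ u ∈ S, u.asIdeal) ≤ v.asIdeal ↔ v ∈ S := by
  constructor
  · intro h
    obtain ⟨u, hu, huv⟩ := (v.isPrime.prod_le).1 h
    have : u = v := HeightOneSpectrum.ext (u.isMaximal.eq_of_le v.isPrime.ne_top huv)
    exact this ▸ hu
  · intro h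
    exact Ideal.le_of_dvd (Finset.dvd_prod_of_mem _ h)

theorem rc (h2 : p = 2 → IsEmpty (K →+* ℝ)) {S : Finset (HeightOneSpectrum (𝓞 K))}
    {w : HeightOneSpectrum (𝓞 K)} (h : Generates p S w) :
    Pool.Agent.H517.S.RC p {v | (p : 𝓞 K) ∈ v.asIdeal ∨ v ∈ S} w := by
  obtain ⟨e, 𝔟, hab, hcop, hun⟩ := h.units
  have h1 := Pool.Agent.H517.S.rc_all h2 hab hcop (𝔫 := ∏ v ∈ S, v.asIdeal) ?_ ?_ h.above
    (B.cls_divisor h.classes) hun
  · simpa only [prod_le_iff] using h1
  · exact Finset.prod_ne_zero_iff.2 fun v _ => v.ne_bot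
  · refine IsCoprime.prod_right fun v hv => ?_
    rw [Ideal.isCoprime_iff_sup_eq]
    have h3 : ¬ Ideal.span {(p : 𝓞 K)} ≤ v.asIdeal := by
      rw [Ideal.span_singleton_le_iff_mem]
      exact h.tame v hv
    exact v.isMaximal.1.2 _ (lt_of_le_of_ne le_sup_right fun h4 => h3 (by
      rw [h4]; exact le_sup_left))


theorem leo_of (L : IntermediateField K (Bar K)) [NumberField L] {w : HeightOneSpectrum (𝓞 K)}
    (hw : (p : 𝓞 K) ∈ w.asIdeal) (h : LeopoldtAt p w L) : Leopoldt L p := by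
  intro n ε _ hc a m hm hN
  refine h n ε hc a m hm fun N => (hN N).mono fun k hk => ?_
  obtain ⟨z, hz⟩ := hk
  rw [hz]
  refine Ideal.mul_mem_right _ _ (Ideal.pow_mem_pow ?_ N)
  have h1 := Ideal.mem_map_of_mem (algebraMap (𝓞 K) (𝓞 L)) hw
  rwa [map_natCast] at h1

theorem out_IS {S : Finset (HeightOneSpectrum (𝓞 K))} {w : HeightOneSpectrum (𝓞 K)} (σ : Gal K)
    (h : σ ∈ Pool.Agent.H517.S.IS (K := K) {v | (p : 𝓞 K) ∈ v.asIdeal ∨ v ∈ S} w) :
    ∃ Q, Outside p S Q ∧ σ ∈ Inr Q := by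
  obtain ⟨Q, v, hQm, hQv, hvS, hvw, hσ⟩ := h
  refine ⟨Q, ⟨hQm, fun hpQ => hvS (Or.inl ?_), fun u hu hQu => hvS (Or.inr ?_)⟩, hσ⟩
  · rw [← hQv, Ideal.mem_comap, map_natCast]
    exact hpQ
  · have : u = v := HeightOneSpectrum.ext (hQu.2.symm.trans hQv)
    exact this ▸ hu

theorem ind_iff {S : Finset (HeightOneSpectrum (𝓞 K))} {w : HeightOneSpectrum (𝓞 K)}
    (hw : (p : 𝓞 K) ∈ w.asIdeal) :
    Independent p S w ↔ E.Ind p {v | (p : 𝓞 K) ∈ v.asIdeal ∨ v ∈ S} w := by
  constructor
  · intro h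
    refine ⟨fun Q hQ hQw ζ hζ => h.roots Q ⟨hQ, hQw⟩ ζ hζ, fun x hx hv ⟨Q, y, hQ, hQw, hy⟩ =>
      h.powers x hx (fun v hpv hvS => hv v (fun h => h.elim hpv hvS) fun hvw => hpv (hvw ▸ hw))
        ⟨Q, y, ⟨hQ, hQw⟩, hy⟩⟩
  · intro h
    refine ⟨fun Q hQ ζ hζ => h.roots Q hQ.1 hQ.2 ζ hζ, fun x hx hv ⟨Q, y, hQ, hy⟩ =>
      h.powers x hx (fun v hpv _ => hv v (fun h => hpv (Or.inl h)) fun h => hpv (Or.inr h))
        ⟨Q, y, hQ.1, hQ.2, hy⟩⟩

theorem exists_eps : ∃ (ζ : Bar K) (ε : Gal K →* (ZMod p)ˣ), IsPrimitiveRoot ζ p ∧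
    ∀ σ : Gal K, σ ζ = ζ ^ (ε σ : ZMod p).val := by
  obtain ⟨ζ, hζ⟩ : ∃ ζ : Bar K, IsPrimitiveRoot ζ p :=
    HasEnoughRootsOfUnity.exists_primitiveRoot (AlgebraicClosure K) p
  exact ⟨ζ, hζ.autToPow K, hζ, fun σ => (hζ.autToPow_spec K σ).symm⟩

/-- **The first part.** -/
theorem part_one (h2 : p = 2 → IsEmpty (K →+* ℝ)) {S : Finset (HeightOneSpectrum (𝓞 K))}
    {w : HeightOneSpectrum (𝓞 K)} (hG : Generates p S w)
    (hI : (∃ ζ : K, IsPrimitiveRoot ζ p) ∨ Independent p S w) (L : IntermediateField K (Bar K))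
    [NumberField L] (hL : InTower p S L) : LeopoldtAt p w L := by
  intro n u hu a m hm h
  obtain ⟨M, hLM, hfd, hgal, ⟨b, hb⟩, hur⟩ := hL
  obtain ⟨Q, hQ, hQw⟩ := Pool.Agent.NH7.Sch.exists_Q (K := K) w
  obtain ⟨ζ, ε, hζ, hε⟩ := exists_eps (K := K) (p := p)
  have hrc := rc h2 hG
  have hMi : ∃ a : ℕ, M.fixingSubgroup.index = p ^ a :=
    ⟨b, by rw [← IntermediateField.finrank_eq_fixingSubgroup_index, hb]⟩
  have hIM : ∀ x ∈ Pool.Agent.H517.S.IS (K := K) {v | (p : 𝓞 K) ∈ v.asIdeal ∨ v ∈ S} w,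
      x ∈ M.fixingSubgroup := by
    intro σ hσ
    obtain ⟨Q', hQ', hσ'⟩ := out_IS σ hσ
    rw [IntermediateField.mem_fixingSubgroup_iff]
    exact hur Q' hQ' σ hσ'
  have hctl : E.Ctl (ε.comp L.fixingSubgroup.subtype)
      {σ : L.fixingSubgroup | (σ : Gal K) ∈
        Pool.Agent.H517.S.IS (K := K) {v | (p : 𝓞 K) ∈ v.asIdeal ∨ v ∈ S} w}
      {σ : L.fixingSubgroup | (σ : Gal K) ∈ Pool.Agent.NH7.Sch.Dec Q} := by
    rcases hI with ⟨ξ, hξ⟩ | hI
    · have hε1 : ε = 1 := by
        ext σ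
        have h3 : IsPrimitiveRoot (algebraMap K (Bar K) ξ) p :=
          hξ.map_of_injective (algebraMap K (Bar K)).injective
        obtain ⟨i, -, hi⟩ := h3.eq_pow_of_pow_eq_one hζ.pow_eq_one
        have h4 : σ ζ = ζ := by rw [← hi, map_pow, AlgEquiv.commutes]
        have h5 : ζ ^ (ε σ : ZMod p).val = ζ ^ 1 := by rw [← hε, h4, pow_one]
        have h6 := E.zpow_cast_eq hζ h5
        rw [ZMod.natCast_zmod_val, Nat.cast_one] at h6
        exact h6
      rw [hε1]
      have e : (1 : Gal K →* (ZMod p)ˣ).comp L.fixingSubgroup.subtype = 1 := rfl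
      rw [e]
      refine E.ctl_of_tower fun N hN hNo hNi hIN => ?_
      exact Pool.Agent.H517.S.no_split hrc (IntermediateField.fixingSubgroup_le hLM) inferInstance hMi
        (IntermediateField.fixingSubgroup_isOpen M) hIM hQ hQw N hN hNo hNi fun x hx => hIN x hx
    · exact (E.ctl_field hrc ((ind_iff hG.above).1 hI) hζ hε (IntermediateField.fixingSubgroup_le hLM)
        inferInstance hMi (IntermediateField.fixingSubgroup_isOpen M) hIM hQ hQw).2
  exact E.leo hG.above hζ hε hQ hQw hctl (fun σ hσ => by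
    obtain ⟨Q', hQ', hσ'⟩ := out_IS σ hσ
    exact ⟨Q', hQ'.1, hQ'.2.1, hσ'⟩) hu hm h

theorem ne_two {S : Finset (HeightOneSpectrum (𝓞 K))} {w : HeightOneSpectrum (𝓞 K)}
    (hI : Independent p S w) : p ≠ 2 := by
  rintro rfl
  obtain ⟨Q, hQ, hQw⟩ := Pool.Agent.NH7.Sch.exists_Q (K := K) w
  obtain ⟨σ, -, h⟩ := hI.roots Q ⟨hQ, hQw⟩ (-1) (IsPrimitiveRoot.neg_one 0 (by norm_num))
  exact h (by rw [map_neg, map_one])

/-- **The second part.** -/
theorem part_two {S : Finset (HeightOneSpectrum (𝓞 K))}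
    {w : HeightOneSpectrum (𝓞 K)} (hG : Generates p S w) (hI : Independent p S w)
    (L : IntermediateField K (Bar K)) [NumberField L] (hL : InTowerTwo p S L) :
    LeopoldtAt p w L := by
  intro n u hu a m hm h
  obtain ⟨M, hLM, hfd, hgal, ⟨b, hb⟩, hζM, hur⟩ := hL
  obtain ⟨Q, hQ, hQw⟩ := Pool.Agent.NH7.Sch.exists_Q (K := K) w
  obtain ⟨ζ, ε, hζ, hε⟩ := exists_eps (K := K) (p := p)
  have hrc := rc (fun h => absurd h (ne_two hI)) hG
  have hMi : ∃ a : ℕ, M.fixingSubgroup.index = 2 * p ^ a :=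
    ⟨b, by rw [← IntermediateField.finrank_eq_fixingSubgroup_index, hb]⟩
  have hIM : ∀ x ∈ Pool.Agent.H517.S.IS (K := K) {v | (p : 𝓞 K) ∈ v.asIdeal ∨ v ∈ S} w,
      x ∈ M.fixingSubgroup := by
    intro σ hσ
    obtain ⟨Q', hQ', hσ'⟩ := out_IS σ hσ
    rw [IntermediateField.mem_fixingSubgroup_iff]
    exact hur Q' hQ' σ hσ'
  have hctl := (E.ctl_quad hrc ((ind_iff hG.above).1 hI) hζ hε
    (IntermediateField.fixingSubgroup_le hLM) (M := M.fixingSubgroup) inferInstance
    (fun σ hσ => (IntermediateField.mem_fixingSubgroup_iff M _).1 hσ ζ (hζM ζ hζ.pow_eq_one)) hMi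
    (IntermediateField.fixingSubgroup_isOpen M) hIM hQ hQw).2.2.2
  exact E.leo hG.above hζ hε hQ hQw hctl (fun σ hσ => by
    obtain ⟨Q', hQ', hσ'⟩ := out_IS σ hσ
    exact ⟨Q', hQ'.1, hQ'.2.1, hσ'⟩) hu hm h

/-- imaginary quadratic fields -/
theorem quad (hp2 : p ≠ 2) (h2 : finrank ℚ K = 2) (hre : IsEmpty (K →+* ℝ))
    (hcl : ¬ p ∣ classNumber K) {w w' : HeightOneSpectrum (𝓞 K)} (hne : w ≠ w')
    (hab : w.asIdeal * w'.asIdeal = Ideal.span {(p : 𝓞 K)}) {α : 𝓞 K} {k : ℕ}
    (hα : Ideal.span {α} = w.asIdeal ^ k) (hα2 : α ^ (p - 1) - 1 ∉ w'.asIdeal ^ 2) :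
    (Generates p ∅ w ∧ Independent p ∅ w) ∧ Generates p ∅ w' ∧ Independent p ∅ w' := by
  have hpw : (p : 𝓞 K) ∈ w.asIdeal := by
    have h3 : Ideal.span {(p : 𝓞 K)} ≤ w.asIdeal := by
      rw [← hab]
      exact Ideal.mul_le_left
    rwa [Ideal.span_singleton_le_iff_mem] at h3
  have hpw' : (p : 𝓞 K) ∈ w'.asIdeal := by
    have h3 : Ideal.span {(p : 𝓞 K)} ≤ w'.asIdeal := by
      rw [← hab]
      exact Ideal.mul_le_right
    rwa [Ideal.span_singleton_le_iff_mem] at h3
  obtain ⟨h3, h4, β, hβ, hβ2⟩ := E.both_quad hp2 h2 hre hcl hne hab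
    (T := {v | (p : 𝓞 K) ∈ v.asIdeal ∨ v ∈ (∅ : Finset (HeightOneSpectrum (𝓞 K)))})
    (fun v hv => hv.elim id fun h => absurd h (Finset.notMem_empty v)) hα hα2
  refine ⟨⟨⟨hpw, by simp, E.class_pow hcl w (cl w), ?_⟩, (ind_iff hpw).2 h3⟩,
    ⟨hpw', by simp, E.class_pow hcl w (cl w'), ?_⟩, (ind_iff hpw').2 h4⟩
  · simpa only [Finset.prod_empty, mul_one] using E.units_quad hp2 h2 hne hab hα hα2
  · simpa only [Finset.prod_empty, mul_one] using
      E.units_quad hp2 h2 hne.symm (by rw [mul_comm]; exact hab) hβ hβ2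

/-- the fields `ℚ(√(1 - 4p))` -/
theorem special (hp2 : p ≠ 2) (h2 : finrank ℚ K = 2) (h : ∃ α : K, α ^ 2 - α + p = 0)
    {v : HeightOneSpectrum (𝓞 K)} (hv : (p : 𝓞 K) ∈ v.asIdeal) :
    Generates p ∅ v ∧ Independent p ∅ v := by
  obtain ⟨a, ha⟩ := h
  have hint : IsIntegral ℤ a := by
    refine ⟨Polynomial.X ^ 2 - Polynomial.X + Polynomial.C (p : ℤ), by monicity!, ?_⟩
    simpa using ha
  obtain ⟨α, hα0⟩ : ∃ α : 𝓞 K, α = ⟨a, hint⟩ := ⟨_, rfl⟩
  have hα1 : algebraMap (𝓞 K) K α = a := by rw [hα0]; rfl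
  have hα : α ^ 2 - α + p = 0 := by
    apply FaithfulSMul.algebraMap_injective (𝓞 K) K
    rw [map_add, map_sub, map_pow, map_natCast, map_zero, hα1, ha]
  obtain ⟨β, hβ'⟩ : ∃ β : 𝓞 K, β = 1 - α := ⟨_, rfl⟩
  have hβ : β ^ 2 - β + p = 0 := by rw [hβ']; linear_combination hα
  obtain ⟨w, hw⟩ := B.exists_pl (p := p) h2 hα
  obtain ⟨w', hw'⟩ := B.exists_pl (p := p) h2 hβ
  have hsum : α + β = 1 := by rw [hβ']; ring
  have hmul : α * β = p := by rw [hβ']; linear_combination -hα
  have hcop : IsCoprime w.asIdeal w'.asIdeal := by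
    rw [hw, hw', Ideal.isCoprime_span_singleton_iff]
    exact ⟨1, 1, by rw [one_mul, one_mul, hsum]⟩
  have hab : w.asIdeal * w'.asIdeal = Ideal.span {(p : 𝓞 K)} := by
    rw [hw, hw', Ideal.span_singleton_mul_span_singleton, hmul]
  have hne : w ≠ w' := by
    rintro rfl
    rw [Ideal.isCoprime_iff_sup_eq, sup_idem] at hcop
    exact w.isPrime.ne_top hcop
  have hcl : ¬ p ∣ classNumber K := by
    intro h
    have h3 : classNumber K < p := by
      unfold classNumber
      exact B.class_lt h2 hp.out hα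
    exact absurd (Nat.le_of_dvd Fintype.card_pos h) (not_le.2 h3)
  have h5 := quad hp2 h2 (B.no_real hp.out.one_le hα) hcl hne hab (α := α) (k := 1)
    (by rw [pow_one, hw]) (E.pow_special h2 hα hsum hw')
  rcases E.above_quad hab hv with h6 | h6
  · rw [h6]
    exact h5.1
  · rw [h6]
    exact h5.2

end proof

/-- **Leopoldt's conjecture at one place in towers of `p`-extensions.** (1) For every prime number `p`, number
field `K` (totally complex if `p = 2`), finite set `S` of primes and place `w` with the condition `Generates`,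
if `K` contains a primitive `p`-th root of unity or also `Independent` holds: `LeopoldtAt p w L` for all fields `L`
contained in a finite Galois extension of `K` of `p`-power degree unramified outside `p` and `S`. (2) With both
conditions: also for all `L` contained in a finite Galois extension of `K` of degree `2 · p ^ a` unramified
outside `p` and `S` which contains the `p`-th roots of unity (for `p = 3`: the towers over `K(√-3)`). (3) `LeopoldtAt` implies Leopoldt's conjecture.
(4) For odd `p`, imaginary quadratic `K`, `(p) = w w'`, `w ≠ w'`, `p` prime to the class number and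
`α ^ (p - 1)` not `1` modulo `w' ^ 2` for an `α` for which `(α)` is a power of `w`, both conditions hold at both
places, with `S = ∅`. (5) They hold for all odd `p` and `K = ℚ(√(1 - 4p))`. -/
theorem result :
    (∀ (p : ℕ) [Fact p.Prime] (K : Type) [Field K] [NumberField K], (p = 2 → IsEmpty (K →+* ℝ)) →
      ∀ (S : Finset (HeightOneSpectrum (𝓞 K))) (w : HeightOneSpectrum (𝓞 K)), Generates p S w →
        ((∃ ζ : K, IsPrimitiveRoot ζ p) ∨ Independent p S w) → LeopoldtInTowers p S w) ∧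
    (∀ (p : ℕ) [Fact p.Prime] (K : Type) [Field K] [NumberField K]
      (S : Finset (HeightOneSpectrum (𝓞 K))) (w : HeightOneSpectrum (𝓞 K)), Suitable p S w →
        LeopoldtInTowersTwo p S w) ∧
    (∀ (p : ℕ) [Fact p.Prime] (K : Type) [Field K] [NumberField K] (w : HeightOneSpectrum (𝓞 K))
      (L : IntermediateField K (Bar K)) [NumberField L], (p : 𝓞 K) ∈ w.asIdeal →
        LeopoldtAt p w L → Leopoldt L p) ∧
    (∀ (p : ℕ) [Fact p.Prime] (K : Type) [Field K] [NumberField K], p ≠ 2 →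
      finrank ℚ K = 2 → IsEmpty (K →+* ℝ) → ∀ w w' : HeightOneSpectrum (𝓞 K), Gold p w w' →
        Suitable p ∅ w ∧ Suitable p ∅ w') ∧
    ∀ (p : ℕ) [Fact p.Prime] (K : Type) [Field K] [NumberField K], p ≠ 2 → finrank ℚ K = 2 →
      (∃ α : K, α ^ 2 - α + p = 0) → ∀ w : HeightOneSpectrum (𝓞 K), (p : 𝓞 K) ∈ w.asIdeal →
        Suitable p ∅ w := by
  refine ⟨?_, ?_, ?_, ?_, ?_⟩
  · intro p _ K _ _ h2 S w hG hI L _ hL
    exact part_one h2 hG hI L hL
  · intro p _ K _ _ S w hG L _ hL
    exact part_two hG.1 hG.2 L hL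
  · intro p _ K _ _ w L _ hw h
    exact leo_of L hw h
  · intro p _ K _ _ hp2 h2 hre w w' ⟨hne, hab, hcl, α, k, hα, hα2⟩
    exact quad hp2 h2 hre hcl hne hab hα hα2
  · intro p _ K _ _ hp2 h2 h w hw
    exact special hp2 h2 h hw

end Pool.Agent.Results.MP_5f2860_nt.OnePlaceInTowers
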