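import Pool.Agent.H575.LS.Upper
import Pool.Graph.R_pool_sql_team_seeded_3997aac3.Q7.LK.Uni

/-!
# Leopoldt defects of `S`-units at sets of places, for most Kummer extensions of odd prime degree

For a number field `K`, a set `T` of primes above `p` and a finite set `S` of primes let `ρ_T(H)` be the rank over `ℂ_p` of the
matrix `(log_p σ(x))`, `x ∈ H`, `σ` the embeddings `K → ℂ_p` which belong to the elements of `T`, for a group `H` of `S`-units,
and `δ_(T,S)(K) = r_1 + r_2 - 1 + #S - ρ_T(S-units of K)`. For `S = ∅` and `T` the set of all primes above `p` this is the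
Leopoldt defect `δ(K, p)`; the other `T` concern the independence of the units at a part of the places above `p`.

Let `p` be odd and let `F` be any number field which contains a primitive `p`-th root of unity, with `m` complex places; let `T`
be a set of primes of `F` above `p` and `S` a finite set of primes, disjoint from `T`. We consider the cyclic extensions
`L = F(d^(1/p))` of degree `p` with prescribed completions at all places above the prime numbers `≤ y` (those of
`F(d₀^(1/p))`; `S` consists of such places), and with prescribed orders `z_0, …, z_(k-1)` modulo `p`, different from `0`, of `d`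
at `k` further primes `q_0, …, q_(k-1)`, of norms `≤ X_0, …, X_(k-1)`, for large `k`, `X_0`, then `X_1` large in terms of `X_0`,
and so on. Let `s` be the number of the elements of `S` which split completely in the `L` and `N = ∑ [F_v : ℚ_p]`, `v ∈ T`.

The `S`-units of `L` of relative norm `1` form a group of the rank `(p - 1) (m + s)`, and `ρ_T` of this group is at most
`(p - 1) N`. Write `ρ` for it.

(1) `ρ ≤ (p - 1) min(m + s, N)`, and the mean of `p^t - 1`, `t = ⌈((p - 1) min(m + s, N) - ρ) / (p - 1)⌉`, over the `L` is at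
most `p^(-|m + s - N|) + ε`. So `ρ` has the greatest possible value for a share of at least
`1 - p^(-|m + s - N|) / (p - 1) - ε` of the fields `L`.

(2) The same for `t = ⌈(δ(L) - δ(F) - (p - 1) max(m + s - N, 0)) / (p - 1)⌉`, `δ = δ_(T,S)`. So for `m + s ≤ N` the defect
`δ_(T,S)` of `L` is at most that of `F` for this share of the `L`, and `0` if that of `F` is `0`.

For `S = ∅`, `T` = all primes above `p` one has `s = 0`, `N = 2 m`: the mean of `p^⌈(δ(L, p) - δ(F, p)) / (p - 1)⌉` over the `L`
is at most `1 + p^(-m) + ε`. That `δ(L, p) ≤ δ(F, p)` for a share `≥ 1 - p^(-m) / (p - 1) - ε` is known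
(`MostCyclicExtensions` of the library).

Proof. From `(p - 1) (n - 1) + 1` independent relations between the `S`-units of relative norm `1` one obtains, by Hilbert's
theorem 90, `p^n - 1` classes of numbers of `F` modulo `p`-th powers and powers of `d` which satisfy local conditions
everywhere: at the places of `T` there are only `p` classes, at the split places of `S` there is no condition. The symbols which
describe the group of these numbers are equidistributed (reciprocity, Chebotarev), and the mean of their number is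
`p^(m + s - N)`, up to `ε`.

The plan and the parts `S_…` of the proof (project LS of helper7, with helpers 26, 31, 77, 79, 94, 113, 124, 151, 176, 181, 190,
223, 224, 252 and the project LK) are in the library; the assembly, the means and the statement are new.
-/

set_option autoImplicit false

namespace Pool.Agent.Results.MP_5f2860_nt.RegulatorRanksAtPlaces

open NumberField IsDedekindDomain Filter Topology

section Ensemble

variable {F : Type} [Field F] [NumberField F]

/-- The order of `a` at `v` modulo `p`. -/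
noncomputable def orderMod (p : ℕ) (v : HeightOneSpectrum (𝓞 F)) (a : F) : ZMod p :=
  -((WithZero.log (v.valuation F a) : ℤ) : ZMod p)

/-- `a` is the `p`-th power of a nonzero element of the completion of `F` at `v`. -/
def PowerAt (p : ℕ) (v : HeightOneSpectrum (𝓞 F)) (a : F) : Prop :=
  a ≠ 0 ∧ ∃ s : v.adicCompletion F, (a : v.adicCompletion F) = s ^ p

/-- `v` lies above a prime number `l ≤ y`. -/
def Small (y : ℕ) (v : HeightOneSpectrum (𝓞 F)) : Prop :=
  ∃ l : ℕ, l.Prime ∧ l ≤ y ∧ (l : 𝓞 F) ∈ v.asIdeal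

open Classical in
/-- Among the primes not above prime numbers `≤ y` the order of `d` modulo `p` is `z i` at the prime `q i` and `0` at the
others; and at the primes above prime numbers `≤ y` the number `d` is equal to `d₀` up to local `p`-th powers. So for
nonzero `z i` and different `q i` the extension `F(d^(1/p))` is ramified, among the primes not above prime numbers
`≤ y`, exactly at the `q i`, and its completions at the other primes are those of `F(d₀^(1/p))`. -/
structure Fits (p y : ℕ) (d₀ : F) {k : ℕ} (z : Fin k → ZMod p) (q : Fin k → HeightOneSpectrum (𝓞 F)) (d : F) :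
    Prop where
  ne : d ≠ 0
  ram : ∀ v : HeightOneSpectrum (𝓞 F), ¬ Small y v → orderMod p v d = ∑ i, if q i = v then z i else 0
  loc : ∀ v : HeightOneSpectrum (𝓞 F), Small y v → PowerAt p v (d / d₀)

/-- The ensemble: the tuples of `k` different primes `q i`, not above prime numbers `≤ y`, of norm `≤ X i`, to which a
`d` belongs. -/
def Ensemble (p y : ℕ) (d₀ : F) {k : ℕ} (z : Fin k → ZMod p) (X : Fin k → ℕ) : Set (Fin k → HeightOneSpectrum (𝓞 F)) :=
  {q | (Function.Injective q ∧ ∀ i, ¬ Small y (q i) ∧ Ideal.absNorm (q i).asIdeal ≤ X i) ∧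
    ∃ d, Fits p y d₀ z q d}

end Ensemble

/-- `P X` is true for all large `X 0`, for all `X 1` which are large in terms of `X 0`, …, for all `X (k-1)` which are
large in terms of the others. -/
def Nested : (k : ℕ) → ((Fin k → ℕ) → Prop) → Prop
  | 0, P => P Fin.elim0
  | k + 1, P => Nested k fun X => ∀ᶠ x : ℕ in atTop, P (Fin.snoc (α := fun _ => ℕ) X x)

/-- `L` is the extension `F(d^(1/p))`, of degree `p`. -/
structure IsKummer (p : ℕ) (F L : Type) [Field F] [Field L] [Algebra F L] (d : F) : Prop where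
  deg : Module.finrank F L = p
  npow : ∀ x : F, d ≠ x ^ p
  root : ∃ x : L, x ^ p = algebraMap F L d

/-- The mean over `E` of `p^t - 1`, `t` the greatest number with `P q t` (`0` if there is none), is at most `b`: this bound
holds for all choices of numbers `t q` such that `P q (t q)` is true whenever `t q ≥ 1`. -/
def MeanAtMost (p : ℕ) {α : Type} (E : Set α) (b : ℝ) (P : α → ℕ → Prop) : Prop :=
  ∀ t : α → ℕ, (∀ q ∈ E, 1 ≤ t q → P q (t q)) → ∑ᶠ q ∈ E, ((p : ℝ) ^ t q - 1) ≤ b * E.ncard

section Defects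

/-- `Lg` is Iwasawa's `p`-adic logarithm on `ℂ_p`: a homomorphism with `Lg p = 0`, given by the power series of `log (1 + z)`
for `|z| < 1` (the value at `0` is irrelevant). -/
structure IsIwasawaLog (p : ℕ) [Fact p.Prime] (Lg : ℂ_[p] → ℂ_[p]) : Prop where
  mul : ∀ x y : ℂ_[p], x ≠ 0 → y ≠ 0 → Lg (x * y) = Lg x + Lg y
  prime : Lg ((p : ℕ) : ℂ_[p]) = 0
  ser : ∀ z : ℂ_[p], ‖z‖ < 1 →
    HasSum (fun n : ℕ => (-1 : ℂ_[p]) ^ n * z ^ (n + 1) / ((n : ℂ_[p]) + 1)) (Lg (1 + z))

/-- the primes of `K` above `p` -/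
def Above (p : ℕ) (K : Type) [Field K] [NumberField K] : Set (HeightOneSpectrum (𝓞 K)) :=
  {P | (p : 𝓞 K) ∈ P.asIdeal}

/-- the primes of `L` above the elements of `S` -/
def overSet (F : Type) [Field F] [NumberField F] (L : Type) [Field L] [NumberField L] [Algebra F L]
    (S : Set (HeightOneSpectrum (𝓞 F))) : Set (HeightOneSpectrum (𝓞 L)) :=
  {P | P.under (𝓞 F) ∈ S}

/-- the group of the `S`-units of `K` -/
def SUnits {K : Type} [Field K] [NumberField K] (S : Set (HeightOneSpectrum (𝓞 K))) : Subgroup Kˣ where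
  carrier := {x | ∀ P : HeightOneSpectrum (𝓞 K), P ∉ S → P.valuation K (x : K) = 1}
  one_mem' := by
    intro P _
    simp
  mul_mem' := by
    intro x y hx hy P hP
    rw [Units.val_mul, map_mul, hx P hP, hy P hP, one_mul]
  inv_mem' := by
    intro x hx P hP
    rw [Units.val_inv_eq_inv_val, map_inv₀, hx P hP, inv_one]

/-- the `S`-units of `L` whose norm to `F` is `1` -/
noncomputable def relUnits (F : Type) [Field F] [NumberField F] (L : Type) [Field L] [NumberField L] [Algebra F L]
    (S : Set (HeightOneSpectrum (𝓞 F))) : Subgroup Lˣ :=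
  SUnits (overSet F L S) ⊓ (Units.map (Algebra.norm F : L →* F)).ker

/-- `r_1 + r_2 - 1 + #S`, the rank of the group of the `S`-units -/
noncomputable def unitRank (K : Type) [Field K] [NumberField K] (S : Set (HeightOneSpectrum (𝓞 K))) : ℕ :=
  InfinitePlace.nrRealPlaces K + InfinitePlace.nrComplexPlaces K - 1 + S.ncard

variable {p : ℕ} [Fact p.Prime]

/-- The embedding `σ : K → ℂ_p` belongs to the prime `P` of `K`. -/
def BelongsTo {K : Type} [Field K] [NumberField K] (P : HeightOneSpectrum (𝓞 K)) (σ : K →+* ℂ_[p]) : Prop :=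
  ∀ x : 𝓞 K, x ∈ P.asIdeal ↔ ‖σ (x : K)‖ < 1

/-- the embeddings `K → ℂ_p` which belong to the elements of `T` -/
abbrev Embeddings (p : ℕ) [Fact p.Prime] {K : Type} [Field K] [NumberField K] (T : Set (HeightOneSpectrum (𝓞 K))) :
    Type :=
  {σ : K →+* ℂ_[p] // ∃ P ∈ T, BelongsTo P σ}

/-- the vectors `(log_p σ(x))`, `σ` the embeddings which belong to elements of `T`, for `x ∈ H` -/
def logVectors (Lg : ℂ_[p] → ℂ_[p]) {K : Type} [Field K] [NumberField K] (T : Set (HeightOneSpectrum (𝓞 K)))
    (H : Subgroup Kˣ) : Set (Embeddings p T → ℂ_[p]) :=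
  {f | ∃ x ∈ H, ∀ σ : Embeddings p T, f σ = Lg (σ.1 (x : K))}

/-- `ρ_T(H)`: the rank over `ℂ_p` of the matrix `(log_p σ(x))`, `x ∈ H`, `σ` the embeddings which belong to elements of `T` -/
noncomputable def logRank (Lg : ℂ_[p] → ℂ_[p]) {K : Type} [Field K] [NumberField K]
    (T : Set (HeightOneSpectrum (𝓞 K))) (H : Subgroup Kˣ) : ℕ :=
  Module.finrank ℂ_[p] (Submodule.span ℂ_[p] (logVectors Lg T H))

/-- `δ_(T,S)(K)`: the rank of the group of the `S`-units minus the rank of its logarithms at `T` -/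
noncomputable def defect (Lg : ℂ_[p] → ℂ_[p]) {K : Type} [Field K] [NumberField K]
    (T S : Set (HeightOneSpectrum (𝓞 K))) : ℤ :=
  unitRank K S - logRank Lg T (SUnits S)

end Defects

section Numbers

variable {F : Type} [Field F] [NumberField F]

/-- `∑ [F_v : ℚ_p]`, `v ∈ T` -/
noncomputable def localDegree (T : Set (HeightOneSpectrum (𝓞 F))) : ℕ :=
  ∑ᶠ v : T, v.1.asIdeal.ramificationIdx ℤ * v.1.asIdeal.inertiaDeg ℤ

/-- the number of the elements of `S` at which `d` is a local `p`-th power (which split completely in `F(d^(1/p))`) -/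
noncomputable def splitCount (p : ℕ) (S : Set (HeightOneSpectrum (𝓞 F))) (d : F) : ℕ :=
  {v | v ∈ S ∧ PowerAt p v d}.ncard

/-- `m + s` -/
noncomputable def relRank (p : ℕ) (S : Set (HeightOneSpectrum (𝓞 F))) (d : F) : ℕ :=
  InfinitePlace.nrComplexPlaces F + splitCount p S d

/-- `p^(-|m + s - N|)` -/
noncomputable def weight (p : ℕ) (T S : Set (HeightOneSpectrum (𝓞 F))) (d : F) : ℝ :=
  (1 / (p : ℝ)) ^ ((relRank p S d - localDegree T) + (localDegree T - relRank p S d))

end Numbers

section Events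

variable {p : ℕ} [Fact p.Prime] {F : Type} [Field F] [NumberField F]

/-- `t ≤ ⌈min(m + s, N) - ρ / (p - 1)⌉` for a field `L = F(d^(1/p))` which belongs to `q`, `t ≥ 1` -/
def RankDrop (Lg : ℂ_[p] → ℂ_[p]) (y : ℕ) (T S : Set (HeightOneSpectrum (𝓞 F))) (d₀ : F) {k : ℕ} (z : Fin k → ZMod p)
    (q : Fin k → HeightOneSpectrum (𝓞 F)) (t : ℕ) : Prop :=
  ∃ d : F, Fits p y d₀ z q d ∧
    ∃ (L : Type) (_ : Field L) (_ : NumberField L) (_ : Algebra F L), IsKummer p F L d ∧
      logRank Lg (overSet F L T) (relUnits F L S) + (p - 1) * (t - 1) <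
        (p - 1) * min (relRank p S d₀) (localDegree T)

/-- `t ≤ ⌈(δ(L) - δ(F)) / (p - 1) - max(m + s - N, 0)⌉` for a field `L = F(d^(1/p))` which belongs to `q`, `t ≥ 1` -/
def DefectGrowth (Lg : ℂ_[p] → ℂ_[p]) (y : ℕ) (T S : Set (HeightOneSpectrum (𝓞 F))) (d₀ : F) {k : ℕ}
    (z : Fin k → ZMod p) (q : Fin k → HeightOneSpectrum (𝓞 F)) (t : ℕ) : Prop :=
  ∃ d : F, Fits p y d₀ z q d ∧
    ∃ (L : Type) (_ : Field L) (_ : NumberField L) (_ : Algebra F L), IsKummer p F L d ∧
      defect Lg T S + ((p - 1) * ((relRank p S d₀ - localDegree T) + (t - 1)) : ℕ) <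
        defect Lg (overSet F L T) (overSet F L S)

/-- for all fields `L = F(d^(1/p))` which belong to `q` the rank `ρ` is `(p - 1) min(m + s, N)`, the defect is at most
`δ(F) + (p - 1) max(m + s - N, 0)`, and it is `0` if `δ(F) = 0` and `m + s ≤ N` -/
def Regular (Lg : ℂ_[p] → ℂ_[p]) (y : ℕ) (T S : Set (HeightOneSpectrum (𝓞 F))) (d₀ : F) {k : ℕ}
    (z : Fin k → ZMod p) (q : Fin k → HeightOneSpectrum (𝓞 F)) : Prop :=
  ∀ (d : F) (L : Type) [Field L] [NumberField L] [Algebra F L], Fits p y d₀ z q d → IsKummer p F L d →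
    logRank Lg (overSet F L T) (relUnits F L S) = (p - 1) * min (relRank p S d₀) (localDegree T) ∧
    defect Lg (overSet F L T) (overSet F L S) ≤
      defect Lg T S + ((p - 1) * (relRank p S d₀ - localDegree T) : ℕ) ∧
    (relRank p S d₀ ≤ localDegree T → defect Lg T S = 0 → defect Lg (overSet F L T) (overSet F L S) = 0)

end Events

section Proof

open Pool.Agent

theorem nested_iff : ∀ (k : ℕ) (P : (Fin k → ℕ) → Prop), Nested k P ↔ Q283.LQ.Nest k P
  | 0, _ => Iff.rfl
  | k + 1, _ => nested_iff k _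

theorem log_iff {p : ℕ} [Fact p.Prime] {Lg : ℂ_[p] → ℂ_[p]} (h : IsIwasawaLog p Lg) : W289.SL.IsIwasawaLog p Lg :=
  ⟨h.mul, h.prime, h.ser⟩

variable {F : Type} [Field F] [NumberField F]

theorem fits_iff {p : ℕ} [Fact p.Prime] {y : ℕ} {d₀ : F} {k : ℕ} {z : Fin k → ZMod p}
    {q : Fin k → HeightOneSpectrum (𝓞 F)} {d : F} : Fits p y d₀ z q d ↔ Q7.LK.Fits p y d₀ z q d := by
  constructor
  · intro h
    exact ⟨h.ne, h.ram, fun v hv => (Q7.LK.t_CPL p F v _).mpr (h.loc v hv)⟩
  · intro h
    exact ⟨h.ne, h.ram, fun v hv => (Q7.LK.t_CPL p F v _).mp (h.loc v hv)⟩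

theorem split_eq (p : ℕ) [Fact p.Prime] (S : Set (HeightOneSpectrum (𝓞 F))) (d : F) :
    splitCount p S d = Q7.LS.sX p S d := by
  unfold splitCount Q7.LS.sX
  congr 1
  ext v
  exact and_congr_right fun _ => (Q7.LK.t_CPL p F v d).symm

theorem degree_eq (p : ℕ) [Fact p.Prime] {T : Set (HeightOneSpectrum (𝓞 F))} (hT : T ⊆ Above p F) :
    localDegree T = Q7.LS.dT p T := by
  unfold localDegree Q7.LS.dT
  refine finsum_congr fun v => ?_
  unfold Q7.LK.dv
  rw [if_pos (show Q7.LK.Dp p v.1 from hT v.2)]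

/-- the number of the embeddings -/
theorem degree_all {p : ℕ} [Fact p.Prime] (hp : p ≠ 2) {ζ : F} (hζ : IsPrimitiveRoot ζ p) :
    localDegree (Above p F) = 2 * InfinitePlace.nrComplexPlaces F := by
  have htc : IsTotallyComplex F := Q7.LK.tot_complex hp hζ
  rw [degree_eq p (le_refl _), ← IsTotallyComplex.finrank F, ← Q224.LS.sum_dv (p := p) (F := F)]
  unfold Q7.LS.dT
  rw [finsum_set_coe_eq_finsum_mem (Above p F) (f := fun v => Q7.LK.dv p v)]
  classical
  refine finsum_congr fun v => ?_
  rw [finsum_eq_if]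
  split_ifs with h
  · rfl
  · unfold Q7.LK.dv
    rw [if_neg (show ¬ Q7.LK.Dp p v from h)]

theorem rel_eq (L : Type) [Field L] [NumberField L] [Algebra F L] (S : Set (HeightOneSpectrum (𝓞 F))) :
    Q7.LS.NS L S = relUnits F L S := by
  unfold Q7.LS.NS
  rw [H575.LS.SUn_eq]
  rfl

/-- the complement of the bad set -/
theorem compl_bound {α : Type} {E B G : Set α} (hE : E.Finite) (hB : B ⊆ E) (hG : G ⊆ E) (h : ∀ q ∈ E, q ∈ B ∨ q ∈ G)
    {b : ℝ} (hb : (B.ncard : ℝ) ≤ b * E.ncard) : (1 - b) * E.ncard ≤ (G.ncard : ℝ) := by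
  have h1 : E ⊆ B ∪ G := fun q hq => h q hq
  have h2 := Set.ncard_le_ncard h1 ((hE.subset hB).union (hE.subset hG))
  have h3 := Set.ncard_union_le B G
  have h4 : (E.ncard : ℝ) ≤ B.ncard + G.ncard := by exact_mod_cast h2.trans h3
  have h5 : (1 - b) * (E.ncard : ℝ) = E.ncard - b * E.ncard := by ring
  rw [h5]
  linarith

end Proof

/-- **Main result.** -/
theorem result (p : ℕ) [Fact p.Prime] (hp : p ≠ 2) (Lg : ℂ_[p] → ℂ_[p]) (hLg : IsIwasawaLog p Lg)
    (F : Type) [Field F] [NumberField F] (ζ : F) (hζ : IsPrimitiveRoot ζ p) :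
    (∃ y₀ : ℕ, ∀ y, y₀ ≤ y → ∀ T S : Set (HeightOneSpectrum (𝓞 F)), T ⊆ Above p F → Disjoint T S → S.Finite →
      (∀ v ∈ S, Small y v) → ∀ d₀ : F, d₀ ≠ 0 → ∀ ε : ℝ, 0 < ε →
      ∃ k₀ : ℕ, ∀ k, k₀ ≤ k → ∀ z : Fin k → ZMod p, (∀ i, z i ≠ 0) → Nested k fun X =>
        (Ensemble p y d₀ z X).Finite ∧ (Ensemble p y d₀ z X).Nonempty ∧
        MeanAtMost p (Ensemble p y d₀ z X) (weight p T S d₀ + ε) (RankDrop Lg y T S d₀ z) ∧
        MeanAtMost p (Ensemble p y d₀ z X) (weight p T S d₀ + ε) (DefectGrowth Lg y T S d₀ z) ∧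
        (1 - weight p T S d₀ / (p - 1) - ε) * (Ensemble p y d₀ z X).ncard ≤
          ({q ∈ Ensemble p y d₀ z X | Regular Lg y T S d₀ z q}.ncard : ℝ)) ∧
    localDegree (Above p F) = 2 * InfinitePlace.nrComplexPlaces F := by
  classical
  have hpp : p.Prime := Fact.out
  have hp1 : (1 : ℝ) < p := by exact_mod_cast hpp.one_lt
  have hL := log_iff hLg
  refine ⟨?_, degree_all hp hζ⟩
  obtain ⟨y0, hy0⟩ := Pool.Agent.H575.LS.meanS p hp F ζ hζ
  refine ⟨y0, fun y hy T S hT hTS hSf hS d₀ hd₀ ε hε => ?_⟩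
  obtain ⟨k0, hk0⟩ := hy0 y hy T S (fun v hv => hT hv) hTS hS hSf d₀ hd₀ ε hε
  refine ⟨k0, fun k hk z hz => (nested_iff k _).mpr (Pool.Agent.Q7.LK.nest_mono k _ _ (fun X hX => ?_)
    (hk0 k hk z hz))⟩
  obtain ⟨hfin, hpos, hinfo, hN⟩ := hX
  have hE : Ensemble p y d₀ z X = Pool.Agent.Q7.LS.Ens p y d₀ z X := by
    ext q
    simp only [Ensemble, Pool.Agent.Q7.LS.Ens, Pool.Agent.Q283.LQ.Box, Set.mem_ofPred_eq, fits_iff]
    rfl
  have hEfin : (Ensemble p y d₀ z X).Finite := by
    rw [hE]
    exact hfin.subset (fun q hq => hq.1)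
  rw [← hE] at hpos hinfo hN
  have hs := split_eq p S d₀
  have hd := degree_eq p hT
  have hw : weight p T S d₀ = (1 / (p : ℝ)) ^ Pool.Agent.Q7.LS.gp
      (InfinitePlace.nrComplexPlaces F + Pool.Agent.Q7.LS.sX p S d₀) (Pool.Agent.Q7.LS.dT p T) := by
    unfold weight relRank Pool.Agent.Q7.LS.gp
    rw [hs, hd]
  have hrr : relRank p S d₀ = InfinitePlace.nrComplexPlaces F + Pool.Agent.Q7.LS.sX p S d₀ := by
    unfold relRank
    rw [hs]
  -- the bad events in terms of the relations
  have hout : ∀ (q : Fin k → HeightOneSpectrum (𝓞 F)) (t : ℕ), q ∈ Ensemble p y d₀ z X → 1 ≤ t →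
      (∃ d : F, Fits p y d₀ z q d ∧
          ∃ (L : Type) (_ : Field L) (_ : NumberField L) (_ : Algebra F L), IsKummer p F L d ∧
            logRank Lg (overSet F L T) (relUnits F L S) + (p - 1) * (t - 1) <
              (p - 1) * min (relRank p S d₀) (localDegree T)) →
      ∃ D, Pool.Agent.Q7.LK.Fits p y d₀ z q D ∧
        ∃ (L : Type) (_ : Field L) (_ : NumberField L) (_ : Algebra F L), Pool.Agent.Q7.LK.Kum p F L D ∧
          Pool.Agent.Q7.LS.OutMS L p T S ((p - 1) * (InfinitePlace.nrComplexPlaces F +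
            Pool.Agent.Q7.LS.sX p S d₀ - Pool.Agent.Q7.LS.dT p T + t - 1) + 1) := by
    rintro q t hq ht ⟨d, hfit, L, i1, i2, i3, hK, hlt⟩
    refine ⟨d, fits_iff.mp hfit, L, i1, i2, i3, ⟨hK.deg, hK.root⟩, ?_⟩
    obtain ⟨hnp, hsD⟩ := hinfo q hq d (fits_iff.mp hfit)
    by_contra hO
    rw [← hsD] at hO
    have h1 := Pool.Agent.H575.LS.relrk_ge hp hL hζ (L := L) ⟨hK.deg, hK.root⟩ hnp (fun v hv => hT hv) hTS hSf ht hO
    rw [hsD, ← hrr, ← hd, rel_eq] at h1
    have h2 : (p - 1) * min (relRank p S d₀) (localDegree T) ≤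
        logRank Lg (overSet F L T) (relUnits F L S) + (p - 1) * (t - 1) := h1
    omega
  -- the relation between the two bad events
  have hdef : ∀ (q : Fin k → HeightOneSpectrum (𝓞 F)) (d : F), q ∈ Ensemble p y d₀ z X → Fits p y d₀ z q d →
      ∀ (L : Type) [Field L] [NumberField L] [Algebra F L], IsKummer p F L d →
        defect Lg (overSet F L T) (overSet F L S) + logRank Lg (overSet F L T) (relUnits F L S) ≤
          defect Lg T S + ((p - 1) * relRank p S d₀ : ℕ) := by
    intro q d hq hfit L _ _ _ hK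
    obtain ⟨hnp, hsD⟩ := hinfo q hq d (fits_iff.mp hfit)
    have h1 := Pool.Agent.H575.LS.defect_le hp hL hζ (L := L) ⟨hK.deg, hK.root⟩ hnp T hSf
    rw [hsD, ← hrr, rel_eq] at h1
    have h2 : unitRank L (overSet F L S) + logRank Lg T (SUnits S) + logRank Lg (overSet F L T) (relUnits F L S) ≤
        unitRank F S + logRank Lg (overSet F L T) (SUnits (overSet F L S)) + (p - 1) * relRank p S d₀ := h1
    have h3 : ((unitRank L (overSet F L S) + logRank Lg T (SUnits S) +
        logRank Lg (overSet F L T) (relUnits F L S) : ℕ) : ℤ) ≤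
        ((unitRank F S + logRank Lg (overSet F L T) (SUnits (overSet F L S)) + (p - 1) * relRank p S d₀ : ℕ) : ℤ) := by
      exact_mod_cast h2
    unfold defect
    rw [Nat.cast_add, Nat.cast_add, Nat.cast_add, Nat.cast_add] at h3
    linarith
  -- the mean
  have hmean : ∀ t : (Fin k → HeightOneSpectrum (𝓞 F)) → ℕ,
      (∀ q ∈ Ensemble p y d₀ z X, 1 ≤ t q → ∃ d : F, Fits p y d₀ z q d ∧
          ∃ (L : Type) (_ : Field L) (_ : NumberField L) (_ : Algebra F L), IsKummer p F L d ∧
            logRank Lg (overSet F L T) (relUnits F L S) + (p - 1) * (t q - 1) <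
              (p - 1) * min (relRank p S d₀) (localDegree T)) →
      ∑ᶠ q ∈ Ensemble p y d₀ z X, ((p : ℝ) ^ t q - 1) ≤
        (weight p T S d₀ + ε) * (Ensemble p y d₀ z X).ncard := by
    intro t ht
    rw [finsum_mem_eq_finite_toFinset_sum _ hEfin]
    have h1 := hN (hEfin.toFinset.filter fun q => 1 ≤ t q) t (by
      intro q hq
      rw [Finset.mem_filter, Set.Finite.mem_toFinset] at hq
      exact ⟨hq.1, hq.2, hout q (t q) hq.1 hq.2 (ht q hq.1 hq.2)⟩)
    rw [← hw] at h1
    refine le_trans (le_of_eq ?_) h1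
    rw [Finset.sum_filter]
    refine Finset.sum_congr rfl fun q _ => ?_
    split_ifs with h
    · rfl
    · have h0 : t q = 0 := by omega
      rw [h0, pow_zero, sub_self]
  have hmean2 : ∀ t : (Fin k → HeightOneSpectrum (𝓞 F)) → ℕ,
      (∀ q ∈ Ensemble p y d₀ z X, 1 ≤ t q → ∃ d : F, Fits p y d₀ z q d ∧
          ∃ (L : Type) (_ : Field L) (_ : NumberField L) (_ : Algebra F L), IsKummer p F L d ∧
            defect Lg T S + ((p - 1) * ((relRank p S d₀ - localDegree T) + (t q - 1)) : ℕ) <
              defect Lg (overSet F L T) (overSet F L S)) →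
      ∑ᶠ q ∈ Ensemble p y d₀ z X, ((p : ℝ) ^ t q - 1) ≤
        (weight p T S d₀ + ε) * (Ensemble p y d₀ z X).ncard := by
    intro t ht
    refine hmean t fun q hq h1 => ?_
    obtain ⟨d, hfit, L, i1, i2, i3, hK, hlt⟩ := ht q hq h1
    refine ⟨d, hfit, L, i1, i2, i3, hK, ?_⟩
    have h2 := hdef q d hq hfit L hK
    have h3 : (logRank Lg (overSet F L T) (relUnits F L S) : ℤ) +
        ((p - 1) * ((relRank p S d₀ - localDegree T) + (t q - 1)) : ℕ) < ((p - 1) * relRank p S d₀ : ℕ) := by
      linarith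
    have h4 : logRank Lg (overSet F L T) (relUnits F L S) +
        (p - 1) * ((relRank p S d₀ - localDegree T) + (t q - 1)) < (p - 1) * relRank p S d₀ := by
      exact_mod_cast h3
    have h5 : (p - 1) * relRank p S d₀ =
        (p - 1) * (relRank p S d₀ - localDegree T) + (p - 1) * min (relRank p S d₀) (localDegree T) := by
      rw [← Nat.mul_add]
      congr 1
      omega
    rw [Nat.mul_add] at h4
    omega
  have hEne : (Ensemble p y d₀ z X).Nonempty := by
    rw [← Set.ncard_pos hEfin]
    exact_mod_cast hpos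
  refine ⟨hEfin, hEne, hmean, hmean2, ?_⟩
  -- the share
  set B := {q ∈ Ensemble p y d₀ z X | ∃ d : F, Fits p y d₀ z q d ∧
          ∃ (L : Type) (_ : Field L) (_ : NumberField L) (_ : Algebra F L), IsKummer p F L d ∧
            logRank Lg (overSet F L T) (relUnits F L S) < (p - 1) * min (relRank p S d₀) (localDegree T)} with hB
  have hBE : B ⊆ Ensemble p y d₀ z X := fun q hq => hq.1
  have hmain : (B.ncard : ℝ) ≤ (weight p T S d₀ / (p - 1) + ε) * (Ensemble p y d₀ z X).ncard := by
    have h1 := hmean (fun q => if q ∈ B then 1 else 0) (by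
      intro q hq h1
      have hqB : q ∈ B := by
        by_contra hc
        rw [if_neg hc] at h1
        omega
      obtain ⟨_, d, hd, L, i1, i2, i3, hK, hlt⟩ := hqB
      refine ⟨d, hd, L, i1, i2, i3, hK, ?_⟩
      rw [if_pos ⟨hq, d, hd, L, i1, i2, i3, hK, hlt⟩]
      simpa using hlt)
    rw [finsum_mem_eq_finite_toFinset_sum _ hEfin] at h1
    have h2 : ∑ q ∈ hEfin.toFinset, ((p : ℝ) ^ (if q ∈ B then 1 else 0) - 1) = (B.ncard : ℝ) * (p - 1) := by
      have h3 : ∀ q : Fin k → HeightOneSpectrum (𝓞 F), ((p : ℝ) ^ (if q ∈ B then 1 else 0) - 1) =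
          if q ∈ B then (p : ℝ) - 1 else 0 := by
        intro q
        split_ifs
        · rw [pow_one]
        · rw [pow_zero, sub_self]
      simp_rw [h3]
      rw [← Finset.sum_filter, Finset.sum_const, nsmul_eq_mul]
      congr 2
      rw [Set.ncard_eq_toFinset_card B (hEfin.subset hBE)]
      congr 1
      ext q
      simp only [Finset.mem_filter, Set.Finite.mem_toFinset]
      exact ⟨fun h => h.2, fun h => ⟨hBE h, h⟩⟩
    rw [h2] at h1
    have h4 : (0 : ℝ) < (p : ℝ) - 1 := by linarith
    have h5 : (1 : ℝ) ≤ (p : ℝ) - 1 := by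
      have h6 : (2 : ℝ) ≤ p := by exact_mod_cast hpp.two_le
      linarith
    have h6 : (B.ncard : ℝ) ≤ (weight p T S d₀ + ε) * (Ensemble p y d₀ z X).ncard / (p - 1) :=
      (le_div_iff₀ h4).mpr h1
    refine h6.trans ?_
    have h7 : (weight p T S d₀ + ε) * (Ensemble p y d₀ z X).ncard / (p - 1) =
        (weight p T S d₀ / (p - 1) + ε / (p - 1)) * (Ensemble p y d₀ z X).ncard := by ring
    rw [h7]
    refine mul_le_mul_of_nonneg_right ?_ (by positivity)
    have h8 : ε / ((p : ℝ) - 1) ≤ ε := div_le_self hε.le h5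
    linarith
  refine le_trans (le_of_eq (by ring)) (compl_bound hEfin hBE (fun q hq => hq.1) (fun q hq => ?_) hmain)
  by_cases hc : q ∈ B
  · exact Or.inl hc
  · refine Or.inr ⟨hq, ?_⟩
    intro d L _ _ _ hfit hK
    obtain ⟨hnp, hsD⟩ := hinfo q hq d (fits_iff.mp hfit)
    have h1 : (p - 1) * min (relRank p S d₀) (localDegree T) ≤
        logRank Lg (overSet F L T) (relUnits F L S) := by
      by_contra hlt
      push Not at hlt
      exact hc ⟨hq, d, hfit, L, inferInstance, inferInstance, inferInstance, hK, hlt⟩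
    have h2 : logRank Lg (overSet F L T) (relUnits F L S) ≤ (p - 1) * localDegree T := by
      have := Pool.Agent.H575.LS.relrk_le hp hL (F := F) (L := L) hK.deg (fun v hv => hT hv) hTS
      rw [← hd, rel_eq] at this
      exact this
    have h3 : logRank Lg (overSet F L T) (relUnits F L S) ≤ (p - 1) * relRank p S d₀ := by
      have := Pool.Agent.H575.LS.relrk_le' hp hL hζ (L := L) ⟨hK.deg, hK.root⟩ hnp T hSf
      rw [hsD, ← hrr, rel_eq] at this
      exact this
    have h4 : logRank Lg (overSet F L T) (relUnits F L S) = (p - 1) * min (relRank p S d₀) (localDegree T) := by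
      refine le_antisymm ?_ h1
      rcases le_total (relRank p S d₀) (localDegree T) with h | h
      · rw [min_eq_left h]
        exact h3
      · rw [min_eq_right h]
        exact h2
    have h5 := hdef q d hq hfit L hK
    have h6 : (p - 1) * relRank p S d₀ =
        (p - 1) * (relRank p S d₀ - localDegree T) + (p - 1) * min (relRank p S d₀) (localDegree T) := by
      rw [← Nat.mul_add]
      congr 1
      omega
    have h7 : defect Lg (overSet F L T) (overSet F L S) ≤
        defect Lg T S + ((p - 1) * (relRank p S d₀ - localDegree T) : ℕ) := by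
      rw [h4, h6, Nat.cast_add] at h5
      linarith
    refine ⟨h4, h7, fun hle h0 => ?_⟩
    have h8 : relRank p S d₀ - localDegree T = 0 := by omega
    rw [h8, mul_zero, Nat.cast_zero, add_zero, h0] at h7
    refine le_antisymm h7 ?_
    have h9 := Pool.Agent.H575.LS.lrk_le_srk hL (overSet F L T) (Pool.Agent.Q223.LS.PS_finite (L := L) hSf)
    have h10 : logRank Lg (overSet F L T) (SUnits (overSet F L S)) ≤ unitRank L (overSet F L S) := h9
    unfold defect
    have h11 : (logRank Lg (overSet F L T) (SUnits (overSet F L S)) : ℤ) ≤ unitRank L (overSet F L S) := by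
      exact_mod_cast h10
    linarith

end Pool.Agent.Results.MP_5f2860_nt.RegulatorRanksAtPlaces
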